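import Pool.Agent.H55.FFM.TD
import Pool.Agent.H8.TD.Targets
import Pool.Agent.H18.HIT.Basic

/-!
# BBD: a bound for the degrees of linear forms in the coordinates of an iterate
-/

set_option autoImplicit false

open MvPolynomial
open Pool.Agent.H18.HIT
open Pool.Agent.H8.TD (lc Wsp K3 xx ph Bd)

namespace Pool.Agent.H61.FFM

open Pool.Agent.H55.FFM

theorem it_fr {k : Type} [Field k] {G : Tup 3 k} {τ : K3 k →ₐ[k] K3 k} (h : Ext G τ) (n : ℕ) :
    ∀ q : Po 3 k, τ^[n] (fr q) = fr (aeval (it G n) q) := by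
  induction n with
  | zero =>
    intro q
    have e1 : (aeval (it G 0) : Po 3 k →ₐ[k] Po 3 k) q = q := by
      have h1 : (it G 0) = (fun i => X i : Tup 3 k) := rfl
      rw [h1, aeval_X_left]
      rfl
    rw [e1]
    rfl
  | succ n ih =>
    intro q
    rw [Function.iterate_succ_apply, h q, ih, aeval_it_succ]

theorem pf_BBD (hINS : Pool.Agent.H8.TD.T_INS) (hBZ1 : Pool.Agent.H8.TD.T_BZ1) : T_BBD := by
  intro k _ _ G τ n hE
  let P : Fin 4 → Po 3 k := Fin.cons 1 (it G n)
  let δ : ℕ := ∑ i, (P i).totalDegree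
  have hP : ∀ i, (P i).totalDegree ≤ δ := fun i =>
    Finset.single_le_sum (f := fun i => (P i).totalDegree) (fun _ _ => Nat.zero_le _)
      (Finset.mem_univ i)
  have hP0 : P 0 = 1 := rfl
  have hph : ∀ i, ph τ n i * algebraMap (Po 3 k) (K3 k) (P 0) =
      algebraMap (Po 3 k) (K3 k) (P i.succ) := by
    intro i
    rw [hP0, map_one, mul_one]
    have h1 := it_fr hE n (X i)
    rw [aeval_X] at h1
    exact h1
  have h2 := hINS k τ P δ 0 n 1 (xx k) (xx k) hP (by rw [hP0]; exact one_ne_zero) hph (hBZ1 k)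
  rw [Nat.zero_add] at h2
  refine ⟨δ * 1, fun s s' s'' => ?_⟩
  have h3 := h2 s'' s s'
  have e1 : ({lc s (xx k), lc s' (xx k), lc s'' (ph τ n)} : Set (K3 k)) =
      {lc s'' (ph τ n), lc s (xx k), lc s' (xx k)} := by
    ext z
    simp only [Set.mem_insert_iff, Set.mem_singleton_iff]
    tauto
  rw [e1]
  exact h3

end Pool.Agent.H61.FFM
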