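import Pool.Agent.H55.FFM.TD

/-!
# FFC: the fibres of a conjugate of an iterate
-/

set_option autoImplicit false

namespace Pool.Agent.H61.FFM

open Pool.Agent.H55.FFM
open Pool.Agent.H12.ZD (pmap)

theorem fin_it {α : Type} (g : α → α) (h : ∀ y, {x | g x = y}.Finite) :
    ∀ (n : ℕ) (y : α), {x | g^[n] x = y}.Finite := by
  intro n
  induction n with
  | zero =>
    intro y
    exact (Set.finite_singleton y).subset fun x hx => hx
  | succ n ih =>
    intro y
    refine ((h y).biUnion fun z _ => ih z).subset ?_
    intro x hx
    have hx' : g^[n + 1] x = y := hx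
    rw [Function.iterate_succ_apply'] at hx'
    exact Set.mem_biUnion (show g^[n] x ∈ {x | g x = y} from hx') rfl

theorem pf_FFC : T_FFC := by
  intro N k _ f G K₀ a t hC hf y
  obtain ⟨ht, _, hC2⟩ := hC
  have h1 := fin_it (pmap f) hf K₀ (fun i => a i + t * y i)
  have hinj : Function.Injective (fun (x : Fin N → k) (i : Fin N) => a i + t * x i) := by
    intro x x' h
    funext i
    have h2 : a i + t * x i = a i + t * x' i := congrFun h i
    exact mul_left_cancel₀ ht (add_left_cancel h2)
  refine (h1.preimage (f := fun (x : Fin N → k) (i : Fin N) => a i + t * x i)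
    hinj.injOn).subset ?_
  intro x hx
  have hx' : pmap G x = y := hx
  change (pmap f)^[K₀] (fun i => a i + t * x i) = fun i => a i + t * y i
  rw [hC2 x, hx']

end Pool.Agent.H61.FFM
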