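import Pool.Agent.H55.FFM.TE

/-!
# JTR: the traces of `q / J` on an invariant closed set
-/

set_option autoImplicit false

open MvPolynomial
open Pool.Agent.H18.HIT

namespace Pool.Agent.H61.FFM

open Pool.Agent.H55.FFM

theorem nrm_ne {F L : Type} [Field F] [Field L] [Algebra F L] (h : 1 ≤ Module.finrank F L) {x : L}
    (hx : x ≠ 0) : Algebra.norm F x ≠ 0 := by
  have : Module.Finite F L := Module.finite_of_finrank_pos h
  exact Algebra.norm_ne_zero_iff.2 hx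

theorem nmh_ne {F : Type} [Field F] (τ : F →+* F) (h : 1 ≤ deh τ) {x : F} (hx : x ≠ 0) :
    nmh τ x ≠ 0 := @nrm_ne F F _ _ τ.toAlgebra h x hx

theorem trh_lin {F : Type} [Field F] (τ : F →+* F) (c a : F) :
    trh τ (τ c * a) = c * trh τ a :=
  @LinearMap.map_smul F F F _ _ _ τ.toAlgebra.toModule Semiring.toModule
    (@Algebra.trace F F _ _ τ.toAlgebra) c a

theorem fr_mul {N : ℕ} {k : Type} [Field k] (a b : Po N k) : fr (a * b) = fr a * fr b :=
  map_mul (algebraMap (Po N k) (KN N k)) a b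

theorem fr_pow {N : ℕ} {k : Type} [Field k] (a : Po N k) (n : ℕ) : fr (a ^ n) = fr a ^ n :=
  map_pow (algebraMap (Po N k) (KN N k)) a n

theorem pf_JTR (hEJF : T_EJF) (hRDT : T_RDT) : T_JTR := by
  intro N k _ _ G τ θ Φ Δ R I F _ _ π τ' β hinj hext hprim hVM hΔ hInd hLFN hβ hJ q
  obtain ⟨hd, hdτ, hdτ', hR⟩ := hRDT N k G τ θ Φ Δ R I F π τ' hinj hext hprim hVM hΔ hInd
  have hβ0 : β ≠ 0 := by
    rintro rfl
    rw [map_zero] at hβ
    exact zero_ne_one hβ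
  have hπJ : π (jac G) ≠ 0 := fun h => hJ ((hVM.ker _).1 h)
  have hπΔ : π Δ ≠ 0 := fun h => hΔ ((hVM.ker _).1 h)
  have hfrJ : fr (jac G) ≠ (0 : KN N k) := by
    intro h
    have h1 : jac G = 0 := (IsFractionRing.to_map_eq_zero_iff (K := KN N k)).1 h
    rw [h1, map_zero] at hπJ
    exact hπJ rfl
  obtain ⟨m, _, h, J₁, _, _, _, hn', hJ₁⟩ := hR (jac G)
  have hπh : π h ≠ 0 := by
    rw [← hn']
    exact mul_ne_zero (pow_ne_zero _ hπΔ) (nmh_ne _ (by rw [hdτ']; exact hd) hπJ)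
  obtain ⟨n, g, hg⟩ := hEJF N k G τ β hinj hext (by rw [hdτ]; exact hd) hβ0 hLFN q
  obtain ⟨m₁, g₁, _, _, ht, ht', _, _, _⟩ := hR (q * J₁)
  refine ⟨g, ?_⟩
  have e1 : fr (q * J₁) = (τ : KN N k →+* KN N k) (fr h) * (fr q / fr (jac G)) := by
    change fr (q * J₁) = τ (fr h) * (fr q / fr (jac G))
    rw [hext, ← hJ₁, fr_mul, fr_mul]
    field_simp
  rw [e1, trh_lin] at ht
  have e2 : fr (β ^ n * g₁) = fr (Δ ^ m₁ * h * g) := by
    rw [fr_mul, fr_mul, fr_mul, fr_pow, fr_pow, ← ht, ← hg]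
    ring
  have e3 : β ^ n * g₁ = Δ ^ m₁ * h * g := IsFractionRing.injective (Po N k) (KN N k) e2
  have e4 := congrArg π e3
  rw [map_mul, map_mul, map_mul, map_pow, map_pow, hβ, one_pow, one_mul] at e4
  rw [e4, mul_assoc] at ht'
  have e5 := mul_left_cancel₀ (pow_ne_zero _ hπΔ) ht'
  have e6 : π (q * J₁) = (τ' : F →+* F) (π h) * (π q / π (jac G)) := by
    change π (q * J₁) = τ' (π h) * (π q / π (jac G))
    rw [hVM.com, ← hJ₁, map_mul, map_mul]
    field_simp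
  rw [e6, trh_lin] at e5
  exact mul_left_cancel₀ hπh e5

end Pool.Agent.H61.FFM
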